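import Pool.Agent.Helper35.PI2.St

/-! Project PI2, module PR: the reaction inequality below `(15+√6)/24`. -/

namespace Helper67.PI2

open Helper35.PI Helper35.PI2
open scoped BigOperators

/-- the largest eigenvalue of the Gram matrix -/
lemma gram_bd {N : ℕ} (P Q H : EE N) (κ : ℝ) (hκ0 : 0 ≤ κ)
    (hκ : κ ^ 2 = (‖P‖ ^ 2 - ‖Q‖ ^ 2) ^ 2 + 4 * (inner ℝ P Q : ℝ) ^ 2) :
    (inner ℝ P H : ℝ) ^ 2 + (inner ℝ Q H : ℝ) ^ 2 ≤
      ‖H‖ ^ 2 * (‖P‖ ^ 2 + ‖Q‖ ^ 2 + κ) / 2 := by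
  set α : ℝ := inner ℝ P H with hα
  set β : ℝ := inner ℝ Q H with hβ
  set r : ℝ := inner ℝ P Q with hr
  set p : ℝ := ‖P‖ ^ 2 with hp
  set q : ℝ := ‖Q‖ ^ 2 with hq
  set y : ℝ := ‖H‖ ^ 2 with hy
  set s : ℝ := α ^ 2 + β ^ 2 with hs
  have hs0 : 0 ≤ s := by positivity
  have hp0 : 0 ≤ p := by positivity
  have hq0 : 0 ≤ q := by positivity
  have hy0 : 0 ≤ y := by positivity
  set W : EE N := α • P + β • Q with hW
  have hWH : (inner ℝ W H : ℝ) = s := by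
    rw [hW, inner_add_left, real_inner_smul_left, real_inner_smul_left, ← hα, ← hβ, hs]
    ring
  have hWW : ‖W‖ ^ 2 = α ^ 2 * p + 2 * α * β * r + β ^ 2 * q := by
    have hpp : p = inner ℝ P P := by rw [hp, real_inner_self_eq_norm_sq]
    have hqq : q = inner ℝ Q Q := by rw [hq, real_inner_self_eq_norm_sq]
    have hQP : (inner ℝ Q P : ℝ) = r := by rw [hr, real_inner_comm]
    rw [← real_inner_self_eq_norm_sq W, hW]
    simp only [inner_add_left, inner_add_right, real_inner_smul_left, real_inner_smul_right]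
    rw [hQP, ← hr, hpp, hqq]
    ring
  have hCS : s ^ 2 ≤ ‖W‖ ^ 2 * y := by
    have h := real_inner_mul_inner_self_le W H
    rw [hWH, real_inner_self_eq_norm_sq, real_inner_self_eq_norm_sq] at h
    nlinarith
  -- the quadratic form
  have hT : (α ^ 2 - β ^ 2) * (p - q) + 4 * α * β * r ≤ s * κ := by
    apply abs_le_of_sq_le_sq' _ (mul_nonneg hs0 hκ0) |>.2
    rw [mul_pow, hκ, hs]
    nlinarith [sq_nonneg ((α ^ 2 - β ^ 2) * r * 2 - 2 * α * β * (p - q))]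
  have hWle : ‖W‖ ^ 2 ≤ s * (p + q + κ) / 2 := by
    rw [hWW, hs] at *
    nlinarith
  have h1 : s ^ 2 ≤ s * (y * (p + q + κ) / 2) := by
    have := mul_le_mul_of_nonneg_right hWle hy0
    nlinarith
  rcases hs0.eq_or_lt with h0 | h0
  · rw [← h0]; positivity
  · have : s * s ≤ s * (y * (p + q + κ) / 2) := by nlinarith
    exact le_of_mul_le_mul_left this h0

theorem hPR (hPE : StPE) : StPR := by
  intro c₀ hc₀
  set c : ℝ := max c₀ (5 / 8) with hc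
  have h6 : 0 < Real.sqrt 6 := by positivity
  have h66 : Real.sqrt 6 ^ 2 = 6 := Real.sq_sqrt (by norm_num)
  have hc1 : c < (15 + Real.sqrt 6) / 24 := by
    apply max_lt hc₀
    linarith
  have hc2 : 5 / 8 ≤ c := le_max_right _ _
  have hcc : c₀ ≤ c := le_max_left _ _
  set g : ℝ := 2 * c - 1 with hg
  have hg1 : 1 / 4 ≤ g := by rw [hg]; linarith
  have hg2 : g < (3 + Real.sqrt 6) / 12 := by rw [hg]; linarith
  have hg0 : 0 < g := by linarith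
  have hquad : 48 * g ^ 2 - 24 * g + 1 < 0 := by
    nlinarith
  set D : ℝ := 3 / 2 - 3 * g - 1 / (16 * g) with hD
  have hDpos : 0 < D := by
    have : D = (24 * g - 48 * g ^ 2 - 1) / (16 * g) := by
      rw [hD]; field_simp; ring
    rw [this]
    apply div_pos <;> linarith
  set δ : ℝ := D / 2 with hδ
  have hδpos : 0 < δ := by rw [hδ]; linarith
  refine ⟨1 - min δ (1 / 2), δ, ?_, ?_, hδpos, ?_⟩
  · have : min δ (1 / 2) ≤ 1 / 2 := min_le_right _ _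
    linarith
  · have : 0 < min δ (1 / 2) := lt_min hδpos (by norm_num)
    linarith
  intro N A hA hX μ hμ0 hμ1
  obtain ⟨hθ, hid⟩ := hPE N A μ hA _ _ _ rfl rfl rfl _ _ rfl rfl
  set P : EE N := A 0 0 - A 1 1 with hP
  set Q : EE N := (2 : ℝ) • A 0 1 with hQ
  set H : EE N := Hv A with hH
  set θ : ℝ := 2 * XX A - YY A with hθd
  set y : ℝ := YY A with hyd
  have hyH : y = ‖H‖ ^ 2 := rfl
  set κ : ℝ := Real.sqrt ((‖P‖ ^ 2 - ‖Q‖ ^ 2) ^ 2 + 4 * (inner ℝ P Q : ℝ) ^ 2) with hκd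
  have hκ0 : 0 ≤ κ := Real.sqrt_nonneg _
  have hκ : κ ^ 2 = (‖P‖ ^ 2 - ‖Q‖ ^ 2) ^ 2 + 4 * (inner ℝ P Q : ℝ) ^ 2 :=
    Real.sq_sqrt (by positivity)
  have hy0 : 0 ≤ y := by rw [hyH]; positivity
  have hθ0 : 0 ≤ θ := by rw [hθ]; positivity
  have hκθ : κ ^ 2 ≤ θ ^ 2 := by
    have h := real_inner_mul_inner_self_le P Q
    rw [real_inner_self_eq_norm_sq, real_inner_self_eq_norm_sq] at h
    rw [hκ, hθ]
    nlinarith
  have hκθ' : κ ≤ θ := by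
    exact (sq_le_sq₀ hκ0 hθ0).mp hκθ
  have hθg : θ ≤ g * y := by
    have h1 : XX A ≤ c * y := hX.trans (mul_le_mul_of_nonneg_right hcc hy0)
    rw [hθd, hg]
    nlinarith
  have hs := gram_bd P Q H κ hκ0 hκ
  rw [← hθ, ← hyH] at hs
  -- the inequality at `μ = 1`
  have hone : y * (θ + κ) / 2 - 2 * y * θ + 3 * θ ^ 2 - κ ^ 2 ≤ -(2 * δ) * (y * θ) := by
    rcases hθ0.eq_or_lt with h0 | h0
    · have hk : κ = 0 := le_antisymm (by rw [h0]; exact hκθ') hκ0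
      rw [hk, ← h0]
      norm_num
    · set χ : ℝ := κ / θ with hχ
      have hκχ : κ = χ * θ := by rw [hχ]; field_simp
      have hχ0 : 0 ≤ χ := div_nonneg hκ0 hθ0
      have hχ1 : χ ≤ 1 := (div_le_one h0).mpr hκθ'
      have e1 : 0 ≤ (3 - χ ^ 2) * θ * (g * y - θ) := by
        apply mul_nonneg (mul_nonneg _ hθ0) (by linarith)
        nlinarith
      have e2 : 0 ≤ 1 / (16 * g) + χ ^ 2 * g - χ / 2 := by
        have : 1 / (16 * g) + χ ^ 2 * g - χ / 2 = (1 - 4 * χ * g) ^ 2 / (16 * g) := by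
          field_simp
          ring
        rw [this]
        positivity
      have e3 : 0 ≤ y * θ * (1 / (16 * g) + χ ^ 2 * g - χ / 2) :=
        mul_nonneg (mul_nonneg hy0 hθ0) e2
      rw [hκχ, hδ, hD]
      generalize 1 / (16 * g) = w at *
      nlinarith
  have hE : (y - 3 / 2 * θ) * θ + 1 / 2 * κ ^ 2 ≤ y * θ := by nlinarith
  have hμ2 : 1 - μ ≤ δ := by
    have : min δ (1 / 2) ≤ δ := min_le_left _ _
    linarith
  have hyθ : 0 ≤ y * θ := mul_nonneg hy0 hθ0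
  have h3 : (1 - μ) * ((y - 3 / 2 * θ) * θ + 1 / 2 * κ ^ 2) ≤ δ * (y * θ) := by
    have a1 : (1 - μ) * ((y - 3 / 2 * θ) * θ + 1 / 2 * κ ^ 2) ≤ (1 - μ) * (y * θ) :=
      mul_le_mul_of_nonneg_left hE (by linarith)
    have a2 : (1 - μ) * (y * θ) ≤ δ * (y * θ) := mul_le_mul_of_nonneg_right hμ2 hyθ
    linarith
  rw [hid, ← hκ]
  have e : (inner ℝ P H : ℝ) ^ 2 + (inner ℝ Q H : ℝ) ^ 2 -
      (1 + μ) * ((y - 3 / 2 * θ) * θ + 1 / 2 * κ ^ 2) =
      ((inner ℝ P H : ℝ) ^ 2 + (inner ℝ Q H : ℝ) ^ 2 - 2 * ((y - 3 / 2 * θ) * θ + 1 / 2 * κ ^ 2)) +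
      (1 - μ) * ((y - 3 / 2 * θ) * θ + 1 / 2 * κ ^ 2) := by ring
  rw [e]
  have h4 : (inner ℝ P H : ℝ) ^ 2 + (inner ℝ Q H : ℝ) ^ 2 -
      2 * ((y - 3 / 2 * θ) * θ + 1 / 2 * κ ^ 2) ≤ -(2 * δ) * (y * θ) := by
    have : 2 * ((y - 3 / 2 * θ) * θ + 1 / 2 * κ ^ 2) = 2 * y * θ - 3 * θ ^ 2 + κ ^ 2 := by ring
    linarith
  linarith

end Helper67.PI2
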